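import Pool.Agent.Y566.MO.Stm

/-!
Project MO, lemma MO-FM: the Cayley graph of the free group is a tree.
-/

set_option autoImplicit false

namespace Pool.Agent.Y468.MO

open Pool.Agent.Y566.MO
open FreeGroup

/-- length of the longest common initial part -/
def cp : List (ℕ × Bool) → List (ℕ × Bool) → ℕ
  | [], _ => 0
  | _ :: _, [] => 0
  | a :: l, b :: m => if a = b then cp l m + 1 else 0

theorem cp_nil_right (l : List (ℕ × Bool)) : cp l [] = 0 := by
  cases l <;> rfl

theorem cp_symm : ∀ l m : List (ℕ × Bool), cp l m = cp m l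
  | [], m => by rw [cp_nil_right]; rfl
  | a :: l, [] => rfl
  | a :: l, b :: m => by
    simp only [cp]
    by_cases h : a = b
    · rw [if_pos h, if_pos h.symm, cp_symm l m]
    · rw [if_neg h, if_neg (fun h' => h h'.symm)]

/-- the ultrametric inequality -/
theorem cp_ultra : ∀ l m n : List (ℕ × Bool), min (cp l m) (cp m n) ≤ cp l n
  | [], m, n => by simp [cp]
  | a :: l, [], n => by simp [cp]
  | a :: l, b :: m, [] => by simp [cp]
  | a :: l, b :: m, c :: n => by
    simp only [cp]
    have ih := cp_ultra l m n
    by_cases h : a = b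
    · by_cases h' : b = c
      · rw [if_pos h, if_pos h', if_pos (h.trans h')]
        omega
      · rw [if_neg h']
        omega
    · rw [if_neg h]
      omega

theorem red_tail {a : ℕ × Bool} {l : List (ℕ × Bool)} (h : IsReduced (a :: l)) : IsReduced l :=
  List.IsChain.tail h

theorem red_inv {l : List (ℕ × Bool)} (h : IsReduced l) : IsReduced (invRev l) := by
  rw [isReduced_iff_reduce_eq, reduce_invRev, h.reduce_eq]

theorem key : ∀ l m : List (ℕ × Bool), IsReduced l → IsReduced m →
    (reduce (invRev l ++ m)).length + 2 * cp l m = l.length + m.length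
  | [], m, _, hm => by
    simp [cp, hm.reduce_eq]
  | a :: l, [], hl, _ => by
    simp [cp, reduce_invRev, hl.reduce_eq]
  | a :: l, b :: m, hl, hm => by
    simp only [cp]
    by_cases h : a = b
    · subst h
      rw [if_pos rfl]
      have ih := key l m (red_tail hl) (red_tail hm)
      have h1 : reduce (invRev (a :: l) ++ a :: m) = reduce (invRev l ++ m) := by
        apply reduce.Step.eq
        have h2 : invRev (a :: l) ++ a :: m = invRev l ++ (a.1, !a.2) :: (a.1, a.2) :: m := by
          rw [invRev_cons]
          simp [invRev]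
        rw [h2]
        exact Red.Step.not_rev
      rw [h1]
      simp only [List.length_cons]
      omega
    · rw [if_neg h]
      have h1 : IsReduced (invRev (a :: l) ++ b :: m) := by
        have h2 : invRev (a :: l) ++ b :: m = invRev l ++ [(a.1, !a.2)] ++ b :: m := by
          rw [invRev_cons]
          simp [invRev]
        rw [h2]
        apply IsReduced.append_overlap
        · have := red_inv hl
          rw [invRev_cons] at this
          exact this
        · change IsReduced ((a.1, !a.2) :: b :: m)
          rw [isReduced_cons_cons]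
          refine ⟨fun h3 => ?_, hm⟩
          by_contra h4
          apply h
          refine Prod.ext (show a.1 = b.1 from h3) ?_
          change ¬ (!a.2) = b.2 at h4
          cases ha : a.2 <;> cases hb : b.2 <;> simp_all
        · simp
      rw [h1.reduce_eq]
      simp [invRev_length]

theorem dG_key (u v : G) : dG u v + 2 * cp u.toWord v.toWord
    = u.toWord.length + v.toWord.length := by
  unfold dG
  rw [toWord_mul, toWord_inv]
  exact key _ _ isReduced_toWord isReduced_toWord

theorem dG_left (x u v : G) : dG (x * u) (x * v) = dG u v := by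
  unfold dG
  congr 2
  group

theorem dG_symm (u v : G) : dG u v = dG v u := by
  have h1 := dG_key u v
  have h2 := dG_key v u
  rw [cp_symm] at h1
  omega

theorem dG_zero (u v : G) : dG u v = 0 ↔ u = v := by
  unfold dG
  rw [List.length_eq_zero_iff, toWord_eq_nil_iff, inv_mul_eq_one]

theorem dG_one (u : G) : dG 1 u = u.toWord.length := by
  unfold dG
  simp

theorem dG_four (u v x y : G) : dG x y + dG u v ≤ max (dG x u + dG y v) (dG x v + dG y u) := by
  have e1 := dG_key (x⁻¹ * u) (x⁻¹ * v)
  have e2 := dG_key (x⁻¹ * y) (x⁻¹ * v)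
  have e3 := dG_key (x⁻¹ * y) (x⁻¹ * u)
  rw [dG_left] at e1 e2 e3
  have f := cp_ultra (x⁻¹ * u).toWord (x⁻¹ * y).toWord (x⁻¹ * v).toWord
  rw [cp_symm (x⁻¹ * u).toWord (x⁻¹ * y).toWord] at f
  have g1 : dG x y = (x⁻¹ * y).toWord.length := rfl
  have g2 : dG x u = (x⁻¹ * u).toWord.length := rfl
  have g3 : dG x v = (x⁻¹ * v).toWord.length := rfl
  omega

theorem dG_one' (γ : G) : dG 1 γ = 1 ↔ ∃ i, γ = FreeGroup.of i ∨ γ = (FreeGroup.of i)⁻¹ := by
  rw [dG_one]
  constructor
  · intro h
    obtain ⟨⟨i, b⟩, hb⟩ := List.length_eq_one_iff.1 h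
    refine ⟨i, ?_⟩
    cases b
    · right
      apply toWord_injective
      rw [hb, toWord_inv, toWord_of]
      rfl
    · left
      apply toWord_injective
      rw [hb, toWord_of]
  · rintro ⟨i, rfl | rfl⟩
    · simp
    · rw [toWord_inv, invRev_length]
      simp

theorem t_FM : S_FM := by
  refine ⟨⟨dG_zero, dG_symm, dG_four⟩, ?_, dG_one'⟩
  intro u v w h1 h2 h3
  have e1 := dG_key u v
  have e2 := dG_key v w
  have e3 := dG_key u w
  omega

end Pool.Agent.Y468.MO
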